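import Mathlib

namespace Pool.Agent.Results.MP_29028a_co.Full

open Finset Polynomial

/-- A non-singular set of small steps with positive weights. -/
def Model (S : Finset (ℤ × ℤ)) (w : ℤ × ℤ → ℝ) : Prop :=
  (∀ s ∈ S, s ≠ 0 ∧ |s.1| ≤ 1 ∧ |s.2| ≤ 1 ∧ 0 < w s) ∧
    ∀ a b : ℝ, (a, b) ≠ 0 → (∃ s ∈ S, 0 < a * s.1 + b * s.2) ∧ ∃ s ∈ S, a * s.1 + b * s.2 < 0

/-- The kernel with denominators cleared, `x y (1 - t P(x,y))`. -/
noncomputable def K (S : Finset (ℤ × ℤ)) (w : ℤ × ℤ → ℝ) (t : ℝ) (x y : ℂ) : ℂ :=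
  x * y - t * ∑ s ∈ S, w s * x ^ (s.1 + 1).toNat * y ^ (s.2 + 1).toNat

/-- `x^p y^q = R₁(x) + R₂(y)` on the curve, wherever the two fractions are defined. -/
def Dec (S : Finset (ℤ × ℤ)) (w : ℤ × ℤ → ℝ) (p q : ℕ) (t : ℝ) : Prop :=
  ∃ N₁ D₁ N₂ D₂ : ℂ[X], D₁ ≠ 0 ∧ D₂ ≠ 0 ∧ ∀ x y, K S w t x y = 0 → D₁.eval x ≠ 0 → D₂.eval y ≠ 0 →
    x ^ p * y ^ q = N₁.eval x / D₁.eval x + N₂.eval y / D₂.eval y

def S0 : Finset (ℤ × ℤ) := {(-1, -1), (-1, 1), (0, 1), (1, -1), (1, 0), (1, 1)}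

def w0 (s : ℤ × ℤ) : ℝ :=
  if s = (-1, -1) then 12 else if s = (1, 1) then 2 else if s.1 + s.2 = 0 then 5 else 11

theorem k0 (t : ℝ) (x y : ℂ) : K S0 w0 t x y = x * y -
    t * (12 + 5 * y ^ 2 + 11 * x * y ^ 2 + 5 * x ^ 2 + 11 * x ^ 2 * y + 2 * x ^ 2 * y ^ 2) := by
  simp [K, S0, w0]
  ring_nf
  simp

theorem yes : Dec S0 w0 1 1 (2 / 95) := by
  have h : (4 * X + 2 : ℂ[X]) ≠ 0 := fun e => by simpa using congrArg (eval 0) e
  refine ⟨-53 + (29 - 10 * X) * (2 * X + 1), 4 * X + 2, -53 + (29 - 10 * X) * (2 * X + 1),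
    4 * X + 2, h, h, fun x y e a b => ?_⟩
  rw [k0] at e
  simp only [eval_add, eval_mul, eval_sub, eval_neg, eval_ofNat, eval_X, eval_one] at a b ⊢
  rw [div_add_div _ _ a b, eq_div_iff (mul_ne_zero a b)]
  push_cast at e
  linear_combination (-380) * e

theorem no : ¬ Dec S0 w0 1 1 (1 / 1452) := by
  classical
  rintro ⟨N₁, D₁, N₂, D₂, h₁, h₂, H⟩
  obtain ⟨_, ⟨n, rfl⟩, hc⟩ := (Set.infinite_range_of_injective (f := fun n : ℕ => ((n + 4 : ℕ) : ℂ))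
    fun a b e => by simpa using e).exists_notMem_finset
    (D₁.roots.toFinset.image (fun x => (x ^ 2 - 132 * x) / (55 * x + 1)) ∪
      D₂.roots.toFinset.image fun y => -(5 * y ^ 2 + 12) / (2 * y ^ 2 + 11 * y + 5))
  have a1 : (((132 + 55 * (n + 4 : ℕ)) ^ 2 + 4 * (n + 4 : ℕ) : ℕ) : ℂ) ≠ 0 := Nat.cast_ne_zero.2 (by positivity)
  have a2 : ((81 * n ^ 2 + 452 * n + 272 : ℕ) : ℂ) ≠ 0 := Nat.cast_ne_zero.2 (by positivity)
  have a3 : ((5 + 2 * (n + 4 : ℕ) : ℕ) : ℂ) ≠ 0 := Nat.cast_ne_zero.2 (by positivity)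
  simp only [mem_union, mem_image, Multiset.mem_toFinset, mem_roots h₁, mem_roots h₂, IsRoot.def,
    not_or, not_exists, not_and] at hc
  push_cast at *
  obtain ⟨u, hu⟩ := IsAlgClosed.exists_pow_nat_eq ((132 + 55 * (n + 4 : ℂ)) ^ 2 + 4 * (n + 4)) two_pos
  obtain ⟨v, hv⟩ := IsAlgClosed.exists_pow_nat_eq (81 * (n : ℂ) ^ 2 + 452 * n + 272) two_pos
  have key : ∀ x y : ℂ, x ^ 2 - 132 * x = (n + 4) * (55 * x + 1) →
      -(5 * y ^ 2 + 12) = (n + 4) * (2 * y ^ 2 + 11 * y + 5) →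
      x * y = N₁.eval x / D₁.eval x + N₂.eval y / D₂.eval y := fun x y a b => by
    have k : K S0 w0 (1 / 1452) x y = 0 := by
      rw [k0]
      push_cast
      linear_combination (-(2 * y ^ 2 + 11 * y + 5) / 1452) * a + (55 * x + 1) / 1452 * b
    have := H x y k (fun e => hc.1 x e ?_) fun e => hc.2 y e ?_
    · simpa using this
    · rw [a, mul_div_cancel_right₀]
      intro q
      rw [q] at a
      have : (7261 : ℂ) = 0 := by linear_combination 3025 * a - (55 * x - 7261) * q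
      norm_num at this
    · rw [b, mul_div_cancel_right₀]
      intro q
      rw [q] at b
      have : (36305 : ℂ) = 0 := by linear_combination (-3015 - 550 * y) * b - 25 * (55 * y - 1) * q
      norm_num at this
  have X : ∀ u : ℂ, u ^ 2 = (132 + 55 * (n + 4 : ℂ)) ^ 2 + 4 * (n + 4) →
      ((132 + 55 * (n + 4) + u) / 2) ^ 2 - 132 * ((132 + 55 * (n + 4) + u) / 2) =
      (n + 4) * (55 * ((132 + 55 * (n + 4) + u) / 2) + 1) := fun u h => by linear_combination h / 4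
  have Y : ∀ v : ℂ, v ^ 2 = 81 * (n : ℂ) ^ 2 + 452 * n + 272 → ∃ y : ℂ,
      -(5 * y ^ 2 + 12) = (n + 4) * (2 * y ^ 2 + 11 * y + 5) ∧
      2 * (5 + 2 * (n + 4)) * y = v - 11 * (n + 4) := fun v h => by
    obtain ⟨y, e⟩ : ∃ y : ℂ, 2 * (5 + 2 * (n + 4)) * y = v - 11 * (n + 4) :=
      ⟨_, mul_div_cancel₀ _ (mul_ne_zero two_ne_zero a3)⟩
    refine ⟨y, mul_left_cancel₀ a3 ?_, e⟩
    linear_combination (-1 / 4) * h - (2 * (5 + 2 * (n + 4)) * y + v + 11 * (n + 4)) / 4 * e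
  obtain ⟨y, y1, y2⟩ := Y v hv
  obtain ⟨z, z1, z2⟩ := Y (-v) (by rw [← hv]; ring)
  have e1 := key _ _ (X u hu) y1
  have e2 := key _ _ (X u hu) z1
  have e3 := key _ _ (X (-u) (by rw [← hu]; ring)) y1
  have e4 := key _ _ (X (-u) (by rw [← hu]; ring)) z1
  have : u * v = 0 := by
    linear_combination (5 + 2 * (n + 4)) * (e1 - e2 - e3 + e4) - u / 2 * (y2 - z2)
  obtain rfl | rfl := mul_eq_zero.1 this
  exacts [a1 (by rw [← hu]; ring), a2 (by rw [← hv]; ring)]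

theorem result : ∃ (S : Finset (ℤ × ℤ)) (w : ℤ × ℤ → ℝ) (p q : ℕ) (t₁ t₂ : ℝ), Model S w ∧ 0 < p ∧
    t₁ ∈ Set.Ioo 0 (1 / ∑ s ∈ S, w s) ∧ t₂ ∈ Set.Ioo 0 (1 / ∑ s ∈ S, w s) ∧
    Dec S w p q t₁ ∧ ¬ Dec S w p q t₂ := by
  have : ∑ s ∈ S0, w0 s = 46 := by simp [S0, w0]; norm_num
  refine ⟨S0, w0, 1, 1, _, _, ⟨by simp [S0, w0], fun a b h => ?_⟩, one_pos, ?_, ?_, yes, no⟩
  · have : ¬ (a = 0 ∧ b = 0) := by simpa using h
    simp only [S0, mem_insert, mem_singleton, exists_eq_or_imp, exists_eq_left]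
    push_cast
    constructor <;> by_contra! q <;> exact this ⟨by linarith [q.1, q.2.1, q.2.2.2.1, q.2.2.2.2.2],
      by linarith [q.1, q.2.1, q.2.2.2.1, q.2.2.2.2.2]⟩
  all_goals rw [this]; norm_num

end Pool.Agent.Results.MP_29028a_co.Full
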